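import Mathlib

set_option autoImplicit false

namespace Pool.Agent.Results.MP_6fb3b3_lc.Exact
open Finset

/-- number of envelopes: triples (day, sender, receiver) used by at least one contract;
there are `M + 2` parties and transfer days `0, ..., M` -/
def cost {M : ℕ} (P : Fin (M + 2) → Equiv.Perm (Fin (M + 2))) : ℕ :=
  (univ.filter fun t : Fin (M + 1) × Fin (M + 2) × Fin (M + 2) =>
    ∃ n, P n t.1.castSucc = t.2.1 ∧ P n t.1.succ = t.2.2).card

/-- a fast protocol: contract `n` reaches its owner `n` on the last day -/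
def Fast {M : ℕ} (P : Fin (M + 2) → Equiv.Perm (Fin (M + 2))) : Prop :=
  ∀ n, P n (Fin.last _) = n

section
variable {M : ℕ} (P : Fin (M + 2) → Equiv.Perm (Fin (M + 2)))

def E (d : Fin (M + 1)) : Finset (Fin (M + 2) × Fin (M + 2)) :=
  univ.image fun n => (P n d.castSucc, P n d.succ)

lemma cost_eq : cost P = ∑ d, (E P d).card := by
  unfold cost
  rw [card_eq_sum_card_fiberwise (f := Prod.fst) (t := univ) (fun _ _ => mem_coe.2 (mem_univ _))]
  refine sum_congr rfl fun d _ => ?_
  refine card_bij (fun t _ => t.2) ?_ ?_ ?_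
  · intro t ht
    simp only [mem_filter, mem_univ, true_and] at ht
    obtain ⟨⟨n, h1, h2⟩, rfl⟩ := ht
    exact mem_image.2 ⟨n, mem_univ _, Prod.ext h1 h2⟩
  · intro t ht s hs h
    exact Prod.ext ((mem_filter.1 ht).2.trans (mem_filter.1 hs).2.symm) h
  · intro b hb
    obtain ⟨n, -, rfl⟩ := mem_image.1 hb
    exact ⟨(d, _), mem_filter.2 ⟨mem_filter.2 ⟨mem_univ _, n, rfl, rfl⟩, rfl⟩, rfl⟩

/-- designated successor of the party `i` on day `d` -/
noncomputable def nx (d : Fin (M + 1)) (i : Fin (M + 2)) : Fin (M + 2) :=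
  P (Function.invFun (fun n => P n d.castSucc) i) d.succ

noncomputable def Fr (d : Fin (M + 1)) : Finset (Fin (M + 2) × Fin (M + 2)) :=
  (E P d).filter fun e => d = 0 ∨ e.2 ≠ nx P d e.1

variable {P}

lemma last_card (hP : Fast P) : M + 2 ≤ (E P (Fin.last M)).card := by
  have : (univ : Finset (Fin (M + 2))).card ≤ (E P (Fin.last M)).card := by
    refine card_le_card_of_injOn (fun n => (P n (Fin.last M).castSucc, P n (Fin.last M).succ))
      (fun n _ => mem_coe.2 (mem_image.2 ⟨n, mem_univ _, rfl⟩)) fun a _ b _ h => ?_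
    have := congrArg Prod.snd h
    simp only [Fin.succ_last] at this
    rwa [hP a, hP b] at this
  simpa using this

lemma ne_own (hP : Fast P) (n : Fin (M + 2)) (d : Fin (M + 1)) : P n d.castSucc ≠ n := by
  intro h
  have := (P n).injective (h.trans (hP n).symm)
  exact absurd this (Fin.castSucc_lt_last d).ne

lemma mid_card (hP : Fast P) (d : Fin (M + 1)) (hd : d ≠ 0) :
    (Fr P d).card + 2 ≤ (E P d).card := by
  have key : ∀ n, (P n d.castSucc, nx P d (P n d.castSucc)) ∈ E P d := fun n =>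
    mem_image.2 ⟨Function.invFun (fun n => P n d.castSucc) (P n d.castSucc), mem_univ _,
      Prod.ext (Function.invFun_eq (f := fun n => P n d.castSucc) ⟨n, rfl⟩) rfl⟩
  have h2 : 2 ≤ ((E P d).filter fun e => ¬ (d = 0 ∨ e.2 ≠ nx P d e.1)).card := by
    refine one_lt_card.2 ⟨_, mem_filter.2 ⟨key 0, by simp [hd]⟩, _,
      mem_filter.2 ⟨key (P 0 d.castSucc), by simp [hd]⟩, fun h => ?_⟩
    exact ne_own hP _ d (congrArg Prod.fst h).symm
  have := card_filter_add_card_filter_not (s := E P d) fun e => d = 0 ∨ e.2 ≠ nx P d e.1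
  unfold Fr
  omega

variable (P)

def fl (c : Fin (M + 2) → ℚ) (d : Fin (M + 1)) (e : Fin (M + 2) × Fin (M + 2)) : ℚ :=
  ∑ n, if (P n d.castSucc, P n d.succ) = e then c n else 0

def vf (c : Fin (M + 2) → ℚ) (d i : Fin (M + 2)) : ℚ := ∑ n, if P n d = i then c n else 0

lemma vf_out (c : Fin (M + 2) → ℚ) (d : Fin (M + 1)) (i : Fin (M + 2)) :
    vf P c d.castSucc i = ∑ j, fl P c d (i, j) := by
  unfold vf fl
  rw [sum_comm]
  refine sum_congr rfl fun n _ => ?_
  by_cases h : P n d.castSucc = i <;> simp [h]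

lemma vf_in (c : Fin (M + 2) → ℚ) (d : Fin (M + 1)) (j : Fin (M + 2)) :
    vf P c d.succ j = ∑ i, fl P c d (i, j) := by
  unfold vf fl
  rw [sum_comm]
  refine sum_congr rfl fun n _ => ?_
  by_cases h : P n d.succ = j <;> simp [h]

lemma fl_out (c : Fin (M + 2) → ℚ) (d : Fin (M + 1)) (e : Fin (M + 2) × Fin (M + 2))
    (he : e ∉ E P d) : fl P c d e = 0 :=
  sum_eq_zero fun n _ => if_neg fun h => he (mem_image.2 ⟨n, mem_univ _, h⟩)

variable {P}

lemma zero_of (hP : Fast P) (hM : 0 < M) (c : Fin (M + 2) → ℚ)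
    (hc : ∀ d : Fin (M + 1), d ≠ Fin.last M → ∀ e ∈ Fr P d, fl P c d e = 0) : c = 0 := by
  have free : ∀ d : Fin (M + 1), d ≠ Fin.last M → ∀ e : Fin (M + 2) × Fin (M + 2),
      (d = 0 ∨ e.2 ≠ nx P d e.1) → fl P c d e = 0 := fun d hd e h => by
    by_cases he : e ∈ E P d
    · exact hc d hd e (mem_filter.2 ⟨he, h⟩)
    · exact fl_out P c d e he
  have h0 : (0 : Fin (M + 1)) ≠ Fin.last M := fun h => by
    have := congrArg Fin.val h
    simp at this
    omega
  have hv : ∀ d : Fin (M + 1), ∀ i, vf P c d.castSucc i = 0 := by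
    intro d
    induction d using Fin.induction with
    | zero =>
      intro i
      rw [vf_out]
      exact sum_eq_zero fun j _ => free 0 h0 _ (Or.inl rfl)
    | succ d ih =>
      intro j
      have hd : d.castSucc ≠ Fin.last M := (Fin.castSucc_lt_last d).ne
      have e : d.succ.castSucc = d.castSucc.succ := rfl
      rw [e, vf_in]
      refine sum_eq_zero fun i _ => ?_
      by_cases hj : j = nx P d.castSucc i
      · have h1 := ih i
        rw [vf_out, sum_eq_single j (fun k _ hk => free _ hd (i, k) (Or.inr (hj ▸ hk)))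
          (by simp)] at h1
        exact h1
      · exact free _ hd (i, j) (Or.inr hj)
  have h1 : ∀ i, ∑ n, c n = c i := fun i => by
    have a1 : ∑ d : Fin (M + 2), vf P c d i = ∑ n, c n := by
      unfold vf
      rw [sum_comm]
      refine sum_congr rfl fun n _ => ?_
      rw [sum_eq_single ((P n).symm i) (fun d _ hd => if_neg fun h => hd (by rw [← h]; simp))
        (by simp)]
      simp
    rw [Fin.sum_univ_castSucc, sum_eq_zero fun d _ => hv d i, zero_add] at a1
    rw [← a1]
    unfold vf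
    simp only [hP _]
    simp
  have h2 : ∑ n, c n = 0 := by
    have a2 : ∑ i : Fin (M + 2), ∑ n, c n = ∑ i, c i := sum_congr rfl fun i _ => h1 i
    rw [sum_const, card_univ, Fintype.card_fin, nsmul_eq_mul] at a2
    have a3 : ((M : ℚ) + 1) * ∑ n, c n = 0 := by
      push_cast at a2
      linarith
    exact (mul_eq_zero.1 a3).resolve_left (by positivity)
  funext i
  rw [← h1 i, h2]; rfl

lemma free_card (hP : Fast P) (hM : 0 < M) :
    M + 2 ≤ ∑ d : Fin M, (Fr P d.castSucc).card := by
  let L : (Fin (M + 2) → ℚ) →ₗ[ℚ] ((Σ d : Fin M, Fr P d.castSucc) → ℚ) :=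
    { toFun := fun c t => fl P c t.1.castSucc t.2.1
      map_add' := fun a b => funext fun t => by
        simp only [fl, Pi.add_apply, ← sum_add_distrib]
        refine sum_congr rfl fun n _ => ?_
        split_ifs <;> simp
      map_smul' := fun r a => funext fun t => by
        simp only [fl, Pi.smul_apply, smul_eq_mul, RingHom.id_apply, mul_sum]
        refine sum_congr rfl fun n _ => ?_
        split_ifs <;> simp }
  have hL : Function.Injective L := by
    rw [injective_iff_map_eq_zero]
    intro c hc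
    refine zero_of hP hM c fun d hd e he => ?_
    obtain ⟨d', rfl⟩ := Fin.exists_castSucc_eq.2 hd
    exact congrFun hc ⟨d', e, he⟩
  have := LinearMap.finrank_le_finrank_of_injective hL
  simpa using this

lemma lower (hP : Fast P) : 4 * M + 2 ≤ cost P := by
  rw [cost_eq, Fin.sum_univ_castSucc]
  have h1 := last_card hP
  rcases M with _ | M
  · omega
  have h2 := free_card hP (Nat.succ_pos M)
  rw [Fin.sum_univ_succ] at h2 ⊢
  have h3 : (Fr P (Fin.castSucc 0)).card ≤ (E P (Fin.castSucc 0)).card :=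
    card_le_card (filter_subset _ _)
  have h4 : ∑ d : Fin M, ((Fr P d.succ.castSucc).card + 2) ≤
      ∑ d : Fin M, (E P d.succ.castSucc).card :=
    sum_le_sum fun d _ => mid_card hP _ fun h => by
      have := congrArg Fin.val h
      simp at this
  rw [sum_add_distrib, sum_const, card_univ, Fintype.card_fin, smul_eq_mul] at h4
  omega

end

def P0 (M : ℕ) (n : Fin (M + 2)) : Equiv.Perm (Fin (M + 2)) :=
  finSuccEquivLast.trans (finSuccEquiv' n).symm

lemma P0_cast (M : ℕ) (n : Fin (M + 2)) (d : Fin (M + 1)) : P0 M n d.castSucc = n.succAbove d := by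
  simp [P0]

lemma upper (M : ℕ) : cost (P0 M) ≤ 4 * M + 2 := by
  rw [cost_eq, Fin.sum_univ_castSucc]
  have h1 : (E (P0 M) (Fin.last M)).card ≤ M + 2 := card_image_le.trans (by simp)
  have h2 : ∀ d : Fin M, (E (P0 M) d.castSucc).card ≤ 3 := fun d => by
    refine le_trans (card_le_card (t := {(d.castSucc.castSucc, d.succ.castSucc),
      (d.castSucc.castSucc, d.succ.succ), (d.castSucc.succ, d.succ.succ)}) ?_) card_le_three
    intro e he
    obtain ⟨n, -, rfl⟩ := mem_image.1 he
    have e : d.castSucc.succ = d.succ.castSucc := rfl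
    rw [P0_cast, e, P0_cast]
    unfold Fin.succAbove
    split_ifs with a b b
    · simp
    · simp
    · exact absurd (lt_trans (by simp [Fin.lt_def]) b) a
    · exact mem_insert_of_mem (mem_insert_of_mem (mem_singleton.2 rfl))
  have h3 : ∑ d : Fin M, (E (P0 M) d.castSucc).card ≤ ∑ _d : Fin M, 3 := sum_le_sum fun d _ => h2 d
  rw [sum_const, card_univ, Fintype.card_fin, smul_eq_mul] at h3
  omega

theorem result : ∀ M : ℕ, IsLeast
    {c | ∃ P : Fin (M + 2) → Equiv.Perm (Fin (M + 2)), Fast P ∧ cost P = c} (4 * (M + 2) - 6) := by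
  intro M
  have hf : Fast (P0 M) := fun n => by simp [P0]
  have e : 4 * (M + 2) - 6 = 4 * M + 2 := by omega
  rw [e]
  refine ⟨⟨P0 M, hf, le_antisymm (upper M) (lower hf)⟩, ?_⟩
  rintro c ⟨P, hP, rfl⟩
  exact lower hP

end Pool.Agent.Results.MP_6fb3b3_lc.Exact
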